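import Pool.Agent.Helper93_DR.Core

/-!
Row AMI (MP_64bfc7_al, theorem CR of helper90): Amitsur's argument for distributive rings.
-/

set_option autoImplicit false

universe u

namespace Pool.Agent.Helper78_DR2

open Pool.Agent.Helper93_DR Cardinal Polynomial

/-- If `x` is transcendental then the elements `(x - a)⁻¹` are linearly independent
(division ring version). -/
theorem linInd {F D : Type*} [Field F] [DivisionRing D] [Algebra F D] {x : D}
    (H : ∀ p : Polynomial F, aeval x p = 0 → p = 0) :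
    LinearIndependent F fun a : F ↦ (x - algebraMap F D a)⁻¹ := by
  classical
  refine linearIndependent_iff'.2 fun s m hm i hi ↦ ?_
  have hnz (a : F) : x - algebraMap F D a ≠ 0 := by
    intro h
    exact X_sub_C_ne_zero a (H (X - C a) (by simp [h]))
  obtain ⟨P, hP⟩ : ∃ P : F → Polynomial F, ∀ i, P i = (s.erase i).prod fun j ↦ (X - C j) :=
    ⟨_, fun _ => rfl⟩
  obtain ⟨Q, hQ⟩ : ∃ Q : Polynomial F, Q = s.prod fun j ↦ (X - C j) := ⟨_, rfl⟩
  have hPQ : ∀ i ∈ s, Q = P i * (X - C i) := by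
    intro i hi
    rw [hQ, hP, Finset.prod_erase_mul _ _ hi]
  have h1 : ∀ i ∈ s, aeval x Q * (m i • (x - algebraMap F D i)⁻¹) = aeval x (C (m i) * P i) := by
    intro i hi
    rw [hPQ i hi, map_mul, mul_smul_comm, mul_assoc]
    have : aeval x (X - C i : Polynomial F) = x - algebraMap F D i := by
      rw [map_sub, aeval_X, aeval_C]
    rw [this, mul_inv_cancel₀ (hnz i), mul_one, map_mul, aeval_C, Algebra.smul_def]
  have h2 : aeval x (s.sum fun i => C (m i) * P i) = 0 := by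
    rw [map_sum, ← Finset.sum_congr rfl h1, ← Finset.mul_sum, hm, mul_zero]
  have h3 := congrArg (Polynomial.eval i) (H _ h2)
  have h4 : ∀ j ∈ s, j ≠ i → Polynomial.eval i (C (m j) * P j) = 0 := by
    intro j hj hji
    have hmem : i ∈ s.erase j := Finset.mem_erase_of_ne_of_mem (Ne.symm hji) hi
    rw [hP, eval_mul, eval_prod, Finset.prod_eq_zero hmem (by simp), mul_zero]
  rw [eval_finsetSum, Finset.sum_eq_single_of_mem i hi h4, hP, eval_mul, eval_C, eval_prod,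
    eval_zero] at h3
  rcases mul_eq_zero.1 h3 with h5 | h5
  · exact h5
  · exfalso
    rw [Finset.prod_eq_zero_iff] at h5
    obtain ⟨j, hj, h6⟩ := h5
    rw [eval_sub, eval_X, eval_C, sub_eq_zero] at h6
    exact (Finset.ne_of_mem_erase hj) h6.symm

theorem rd_over {C D : Type u} [Field C] [DivisionRing D] [Algebra C D] (R0 : Subring D)
    (hR : ∀ q : D, q ≠ 0 → ∃ x ∈ R0, q * x ∈ R0 ∧ q⁻¹ * (1 - x) ∈ R0) (T : Subalgebra C D)
    (hT : (R0 : Set D) ⊆ T) : RD T := by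
  intro u v
  by_cases hu : (u : D) = 0
  · have hu' : u = 0 := Subtype.ext hu
    exact ⟨1, 0, 0, 0, by simp, by simp [hu'], by simp⟩
  by_cases hv : (v : D) = 0
  · have hv' : v = 0 := Subtype.ext hv
    exact ⟨0, 1, 0, 0, by simp, by simp, by simp [hv']⟩
  obtain ⟨x, hx, h1, h2⟩ := hR ((v : D)⁻¹ * u) (mul_ne_zero (inv_ne_zero hv) hu)
  refine ⟨⟨x, hT hx⟩, 1 - ⟨x, hT hx⟩, ⟨_, hT h1⟩, ⟨_, hT h2⟩, by simp, ?_, ?_⟩
  · apply Subtype.ext
    show (u : D) * x = v * ((v : D)⁻¹ * u * x)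
    rw [mul_assoc, ← mul_assoc (v : D), mul_inv_cancel₀ hv, one_mul]
  · apply Subtype.ext
    show (v : D) * (1 - x) = u * (((v : D)⁻¹ * u)⁻¹ * (1 - x))
    rw [mul_inv_rev, inv_inv, mul_assoc, ← mul_assoc (u : D), mul_inv_cancel₀ hu, one_mul]

theorem ami {C D : Type u} [Field C] [DivisionRing D] [Algebra C D] (S : Set D)
    (hS : #S < #C) (hC : ℵ₀ < #C) (R0 : Subring D)
    (hR : ∀ q : D, q ≠ 0 → ∃ x ∈ R0, q * x ∈ R0 ∧ q⁻¹ * (1 - x) ∈ R0)
    (hRS : (R0 : Set D) ⊆ Algebra.adjoin C S) :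
    ∀ b : D, IsAlgebraic C b ∨ ∀ d, b * d = d * b := by
  intro b
  by_contra hcon
  push Not at hcon
  obtain ⟨htr, r, hbr⟩ := hcon
  have hb : ∀ p : Polynomial C, aeval b p = 0 → p = 0 := by
    intro p hp
    by_contra hp0
    exact htr ⟨p, hp0, hp⟩
  obtain ⟨e, he⟩ : ∃ e, e = b * r - r * b := ⟨_, rfl⟩
  have he0 : e ≠ 0 := by rw [he]; exact sub_ne_zero.2 hbr
  obtain ⟨S', hS'⟩ : ∃ S' : Set D, S' = S ∪ {b, r, e⁻¹} := ⟨_, rfl⟩
  obtain ⟨T, hT⟩ : ∃ T : Subalgebra C D, T = Algebra.adjoin C S' := ⟨_, rfl⟩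
  have hsub : S' ⊆ T := by rw [hT]; exact Algebra.subset_adjoin
  have hRT : (R0 : Set D) ⊆ T := by
    refine hRS.trans ?_
    rw [hT]
    exact Algebra.adjoin_mono (by rw [hS']; exact Set.subset_union_left)
  have hrd : RD T := rd_over R0 hR T hRT
  have hbT : b ∈ T := hsub (by rw [hS']; right; simp)
  have hrT : r ∈ T := hsub (by rw [hS']; right; simp)
  have heT : e⁻¹ ∈ T := hsub (by rw [hS']; right; simp)
  have hcard : #S' < #C := by
    rw [hS']
    refine (mk_union_le _ _).trans_lt (add_lt_of_lt hC.le hS ?_)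
    refine lt_trans ?_ hC
    exact Cardinal.lt_aleph0_of_finite _
  have hrank : Module.rank C T < #C := by
    rw [hT]
    exact (Algebra.rank_adjoin_le S').trans_lt (max_lt hcard hC)
  have hex : ∃ c : C, (b - algebraMap C D c)⁻¹ ∉ T := by
    by_contra hno
    push Not at hno
    have hli : LinearIndependent C (fun c : C => (⟨(b - algebraMap C D c)⁻¹, hno c⟩ : T)) := by
      apply LinearIndependent.of_comp T.val.toLinearMap
      exact linInd hb
    exact absurd hli.cardinal_le_rank (not_le.2 hrank)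
  obtain ⟨c, hc⟩ := hex
  obtain ⟨β, hβ⟩ : ∃ β : T, (β : D) = b - algebraMap C D c :=
    ⟨⟨b - algebraMap C D c, T.sub_mem hbT (T.algebraMap_mem c)⟩, rfl⟩
  obtain ⟨M, hM, hsubM⟩ := exists_MR {x : T | ∃ t : T, x = β * t} ⟨0, by simp⟩
    (by
      rintro x ⟨t, rfl⟩ y ⟨t', rfl⟩
      exact ⟨t + t', by rw [mul_add]⟩)
    (by
      rintro x ⟨t, rfl⟩ z
      exact ⟨t * z, by rw [mul_assoc]⟩)
    (by
      rintro ⟨t, ht⟩
      apply hc
      have h1 : (1 : D) = (b - algebraMap C D c) * t := by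
        rw [← hβ]
        exact congrArg Subtype.val ht
      have h2 : (b - algebraMap C D c)⁻¹ = t := inv_eq_of_mul_eq_one_right h1.symm
      rw [h2]
      exact t.2)
  have h1 : β ∈ M := hsubM ⟨1, by rw [mul_one]⟩
  have h2 : β * ⟨r, hrT⟩ - ⟨r, hrT⟩ * β ∈ M := hM.sub (hM.mul _ h1 _) (hM.left hrd _ h1)
  have h3 := hM.mul _ h2 ⟨e⁻¹, heT⟩
  apply hM.one
  have h4 : (β * ⟨r, hrT⟩ - ⟨r, hrT⟩ * β) * ⟨e⁻¹, heT⟩ = 1 := by
    apply Subtype.ext
    show ((β : D) * r - r * (β : D)) * e⁻¹ = 1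
    have : (β : D) * r - r * (β : D) = e := by
      rw [hβ, he, sub_mul, mul_sub, Algebra.commutes c r]
      abel
    rw [this, mul_inv_cancel₀ he0]
  rw [← h4]
  exact h3

end Pool.Agent.Helper78_DR2
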