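import Pool.Agent.Helper93_DR.Free

/-!
MP_64bfc7_al, Theorem FS+ of helper90 (note 3604), core.

Divisibility at a completely prime ideal of a right distributive ring, and the theorem: a relation
between `s a a` and `s a s a` with central coefficients whose ideal contains a (locally) regular
element forces `a s ^ 3` to lie in `s A`.
-/

set_option autoImplicit false

namespace Pool.Agent.Helper78_DR2

open Pool.Agent.Helper93_DR Finset

variable {B : Type*} [Ring B]

/-- completely prime two-sided ideals -/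
structure CPS (P : Set B) : Prop where
  zero : (0 : B) ∈ P
  add : ∀ x ∈ P, ∀ y ∈ P, x + y ∈ P
  right : ∀ x ∈ P, ∀ r : B, x * r ∈ P
  left : ∀ x ∈ P, ∀ r : B, r * x ∈ P
  one : (1 : B) ∉ P
  prime : ∀ x y, x ∉ P → y ∉ P → x * y ∉ P

theorem cps_of_MR {M : Set B} (hM : MR M) (h : RD B) : CPS M :=
  ⟨hM.zero, hM.add, hM.mul, fun _ hx r => hM.left h r hx, hM.one,
    fun _ _ hx hy => hM.prime h hx hy⟩

theorem CPS.neg {P : Set B} (hP : CPS P) {x : B} (hx : x ∈ P) : -x ∈ P := by
  have := hP.right x hx (-1)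
  simpa using this

theorem CPS.ore {P : Set B} (hP : CPS P) (h : RD B) (c : B) {x : B} (hx : x ∉ P) :
    ∃ x' w, x' ∉ P ∧ c * x' = x * w := by
  obtain ⟨p, q, c1, d1, h1, h2, h3⟩ := h c x
  by_cases hp : p ∈ P
  · have hq : q ∉ P := by
      intro hq
      apply hP.one
      rw [← h1]
      exact hP.add _ hp _ hq
    refine ⟨d1, q, ?_, h3.symm⟩
    intro hd
    have : x * q ∉ P := hP.prime _ _ hx hq
    rw [h3] at this
    exact this (hP.left _ hd _)
  · exact ⟨p, c1, hp, h2⟩

/-- `x` vanishes at `P` -/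
def KR (P : Set B) (x : B) : Prop := ∃ t, t ∉ P ∧ x * t = 0

section order

variable {P : Set B}

theorem c_refl (hP : CPS P) (x : B) : LE P x x := ⟨1, 1, hP.one, rfl⟩

theorem c_of_mul (hP : CPS P) (q r : B) : LE P (q * r) q := ⟨1, r, hP.one, by rw [mul_one]⟩

theorem c_le_of_sl {p q : B} (h : SL P p q) : LE P p q := by
  obtain ⟨v, r, hv, _, h1⟩ := h
  exact ⟨v, r, hv, h1⟩

theorem c_trans (hP : CPS P) (h : RD B) {p q r : B} (h1 : LE P p q) (h2 : LE P q r) :
    LE P p r := by
  obtain ⟨v, b, hv, e1⟩ := h1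
  obtain ⟨v', c, hv', e2⟩ := h2
  obtain ⟨x, w, hx, e3⟩ := hP.ore h b hv'
  refine ⟨v * x, c * w, hP.prime _ _ hv hx, ?_⟩
  rw [← mul_assoc, e1, mul_assoc, e3, ← mul_assoc, e2, mul_assoc]

theorem c_trans_left (hP : CPS P) (h : RD B) {p q r : B} (h1 : LE P p q)
    (h2 : SL P q r) : SL P p r := by
  obtain ⟨v, b, hv, e1⟩ := h1
  obtain ⟨v', c, hv', hc, e2⟩ := h2
  obtain ⟨x, w, hx, e3⟩ := hP.ore h b hv'
  refine ⟨v * x, c * w, hP.prime _ _ hv hx, hP.right _ hc _, ?_⟩
  rw [← mul_assoc, e1, mul_assoc, e3, ← mul_assoc, e2, mul_assoc]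

theorem c_trans_right (hP : CPS P) (h : RD B) {p q r : B} (h1 : SL P p q)
    (h2 : LE P q r) : SL P p r := by
  obtain ⟨v, b, hv, hb, e1⟩ := h1
  obtain ⟨v', c, hv', e2⟩ := h2
  obtain ⟨x, w, hx, e3⟩ := hP.ore h b hv'
  have hw : w ∈ P := by
    by_contra hw
    exact hP.prime _ _ hv' hw (by rw [← e3]; exact hP.right _ hb _)
  refine ⟨v * x, c * w, hP.prime _ _ hv hx, hP.left _ hw _, ?_⟩
  rw [← mul_assoc, e1, mul_assoc, e3, ← mul_assoc, e2, mul_assoc]

theorem c_add (hP : CPS P) (h : RD B) {p p' q : B} (h1 : SL P p q) (h2 : SL P p' q) :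
    SL P (p + p') q := by
  obtain ⟨v, m, hv, hm, e1⟩ := h1
  obtain ⟨v', m', hv', hm', e2⟩ := h2
  obtain ⟨x, w, hx, e3⟩ := hP.ore h v hv'
  refine ⟨v * x, m * x + m' * w, hP.prime _ _ hv hx,
    hP.add _ (hP.right _ hm _) _ (hP.right _ hm' _), ?_⟩
  rw [add_mul, ← mul_assoc, e1, e3, ← mul_assoc, e2]
  noncomm_ring

theorem c_neg (hP : CPS P) {p q : B} (h1 : SL P p q) : SL P (-p) q := by
  obtain ⟨v, m, hv, hm, e1⟩ := h1
  exact ⟨v, -m, hv, hP.neg hm, by rw [neg_mul, e1, mul_neg]⟩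

theorem c_zero (hP : CPS P) (q : B) : SL P 0 q := ⟨1, 0, hP.one, hP.zero, by simp⟩

theorem c_sum (hP : CPS P) (h : RD B) {ι : Type*} (s : Finset ι) (f : ι → B) (q : B)
    (hf : ∀ i ∈ s, SL P (f i) q) : SL P (∑ i ∈ s, f i) q := by
  classical
  induction s using Finset.induction_on with
  | empty => simpa using c_zero hP q
  | insert a s ha ih =>
    rw [Finset.sum_insert ha]
    exact c_add hP h (hf a (Finset.mem_insert_self a s))
      (ih (fun i hi => hf i (Finset.mem_insert_of_mem hi)))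

/-- (o1) -/
theorem c_total (hP : CPS P) (h : RD B) {x y : B} (hxy : ¬ LE P x y) : SL P y x := by
  obtain ⟨p, q, c, d, e1, e2, e3⟩ := h x y
  have hp : p ∈ P := by
    by_contra hp
    exact hxy ⟨p, c, hp, e2⟩
  have hq : q ∉ P := by
    intro hq
    apply hP.one
    rw [← e1]
    exact hP.add _ hp _ hq
  refine ⟨q, d, hq, ?_, e3⟩
  by_contra hd
  exact hxy ⟨d, q, hd, e3.symm⟩

theorem c_total' (hP : CPS P) (h : RD B) {x y : B} (hxy : ¬ SL P y x) : LE P x y := by
  by_contra hn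
  exact hxy (c_total hP h hn)

/-- (o3) -/
theorem c_kr (hP : CPS P) (h : RD B) {x y : B} (h1 : LE P x y) (h2 : SL P y x) : KR P y := by
  obtain ⟨v, r, hv, e1⟩ := h1
  obtain ⟨w, m, hw, hm, e2⟩ := h2
  obtain ⟨x', w', hx', e3⟩ := hP.ore h m hv
  have hw' : w' ∈ P := by
    by_contra hn
    exact hP.prime _ _ hv hn (by rw [← e3]; exact hP.right _ hm _)
  refine ⟨w * x' - r * w', ?_, ?_⟩
  · intro hmem
    have h3 := hP.add _ hmem _ (hP.left _ hw' r)
    rw [sub_add_cancel] at h3
    exact hP.prime _ _ hw hx' h3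
  · rw [mul_sub, ← mul_assoc, e2, mul_assoc, e3, ← mul_assoc, e1, ← mul_assoc, sub_self]

theorem c_kr_le (hP : CPS P) (h : RD B) {x y : B} (h1 : LE P x y) (h2 : KR P y) : KR P x := by
  obtain ⟨v, r, hv, e1⟩ := h1
  obtain ⟨t, ht, e2⟩ := h2
  obtain ⟨x', w, hx', e3⟩ := hP.ore h r ht
  exact ⟨v * x', hP.prime _ _ hv hx', by
    rw [← mul_assoc, e1, mul_assoc, e3, ← mul_assoc, e2, zero_mul]⟩

theorem c_self (hP : CPS P) (h : RD B) {x : B} (h1 : SL P x x) : KR P x :=
  c_kr hP h (c_refl hP x) h1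

/-- (o5) -/
theorem c_mul_mem (hP : CPS P) (h : RD B) {x y m : B} (h1 : LE P x y) (hm : m ∈ P) :
    SL P (x * m) y := by
  obtain ⟨v, r, hv, e1⟩ := h1
  obtain ⟨z, z', hz, e2⟩ := hP.ore h m hv
  have hz' : z' ∈ P := by
    by_contra hn
    exact hP.prime _ _ hv hn (by rw [← e2]; exact hP.right _ hm _)
  refine ⟨z, r * z', hz, hP.left _ hz' _, ?_⟩
  rw [mul_assoc, e2, ← mul_assoc, e1, mul_assoc]

theorem c_sl_of_mul (hP : CPS P) {x y v : B} (hv : v ∉ P) (h1 : SL P (x * v) y) : SL P x y := by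
  obtain ⟨v', m, hv', hm, e1⟩ := h1
  exact ⟨v * v', m, hP.prime _ _ hv hv', hm, by rw [← mul_assoc, e1]⟩

theorem c_le_of_mul (hP : CPS P) {x y v : B} (hv : v ∉ P) (h1 : LE P (x * v) y) : LE P x y := by
  obtain ⟨v', m, hv', e1⟩ := h1
  exact ⟨v * v', m, hP.prime _ _ hv hv', by rw [← mul_assoc, e1]⟩

theorem c_left {p q : B} (h : LE P p q) (z : B) : LE P (z * p) (z * q) := by
  obtain ⟨v, r, hv, h1⟩ := h
  exact ⟨v, r, hv, by rw [mul_assoc, h1, mul_assoc]⟩

theorem s_left {p q : B} (h : SL P p q) (z : B) : SL P (z * p) (z * q) := by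
  obtain ⟨v, r, hv, hr, h1⟩ := h
  exact ⟨v, r, hv, hr, by rw [mul_assoc, h1, mul_assoc]⟩

/-- (o6) -/
theorem c_cancel_sl (hP : CPS P) (h : RD B) {c x y : B} (h1 : SL P (c * x) (c * y))
    (h2 : ¬ KR P (c * y)) : SL P x y := by
  by_contra hn
  have h3 : LE P y x := c_total' hP h hn
  exact h2 (c_kr_le hP h (c_left h3 c) (c_kr hP h (c_left h3 c) h1))

theorem c_cancel_le (hP : CPS P) (h : RD B) {c x y : B} (h1 : LE P (c * x) (c * y))
    (h2 : ¬ KR P (c * x)) : LE P x y := by
  by_contra hn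
  have h3 : SL P y x := c_total hP h hn
  exact h2 (c_kr_le hP h h1 (c_kr hP h h1 (s_left h3 c)))

/-! ### values of words -/

variable {a s y d : B}

theorem v_aux (hP : CPS P) (h : RD B) (hy : y ∉ P) (hsy : s * y = a * s ^ 2 * d) (z : B)
    (hz : LE P (s ^ 2) z) : LE P s (a * z) := by
  have h1 : LE P s (a * s ^ 2) := ⟨y, d, hy, hsy⟩
  exact c_trans hP h h1 (c_left hz a)

theorem v_aux2 (z : B) (hz : LE P s z) : LE P (s ^ 2) (s * z) := by
  rw [pow_two]
  exact c_left hz s

theorem v_aux3 (hP : CPS P) (h : RD B) (z : B) (hz : LE P s z) : LE P (s ^ 2) z := by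
  rw [pow_two]
  exact c_trans hP h (c_of_mul hP s s) hz

theorem v_le (hP : CPS P) (h : RD B) (hy : y ∉ P) (hsy : s * y = a * s ^ 2 * d)
    (l : List (Fin 2)) : LE P (s ^ 2) (wval a s l) := by
  induction l with
  | nil =>
    refine ⟨1, s ^ 2, hP.one, ?_⟩
    simp [wval]
  | cons x l ih =>
    have h1 : LE P s (a * wval a s l) := v_aux hP h hy hsy _ ih
    rw [wval]
    split_ifs with hx
    · have e : s * a * a * wval a s l = s * (a * (a * wval a s l)) := by noncomm_ring
      rw [e]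
      exact v_aux2 _ (v_aux hP h hy hsy _ (v_aux3 hP h _ h1))
    · have e : s * a * (s * a) * wval a s l = s * (a * (s * (a * wval a s l))) := by noncomm_ring
      rw [e]
      exact v_aux2 _ (v_aux hP h hy hsy _ (v_aux2 _ h1))

theorem v_sl (hP : CPS P) (h : RD B) (hy : y ∉ P) (hd : d ∈ P) (hsy : s * y = a * s ^ 2 * d)
    (l l' : List (Fin 2)) (hl : l < l') : SL P (wval a s l') (wval a s l) := by
  induction l generalizing l' with
  | nil =>
    cases l' with
    | nil => exact absurd hl (lt_irrefl _)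
    | cons x l' =>
      have h1 : SL P s 1 := ⟨y, a * s ^ 2 * d, hy, hP.left _ hd _, by rw [hsy, one_mul]⟩
      have h2 : LE P (wval a s (x :: l')) s := by
        rw [wval]
        split_ifs
        · have e : s * a * a * wval a s l' = s * (a * (a * wval a s l')) := by noncomm_ring
          rw [e]
          exact c_of_mul hP _ _
        · have e : s * a * (s * a) * wval a s l' = s * (a * (s * (a * wval a s l'))) := by
            noncomm_ring
          rw [e]
          exact c_of_mul hP _ _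
      exact c_trans_left hP h h2 h1
  | cons x l ih =>
    cases l' with
    | nil => exact absurd hl (List.not_lt_nil _)
    | cons x' l' =>
      rcases List.cons_lt_cons_iff.1 hl with hlt | ⟨rfl, hlt⟩
      · have hx : x = 0 := by
          have g1 : (x : ℕ) < (x' : ℕ) := hlt
          have g2 := x'.2
          apply Fin.ext
          simp only [Fin.val_zero]
          omega
        have hx' : x' ≠ 0 := by
          rintro rfl
          exact absurd hlt (Fin.not_lt_zero _)
        rw [wval, wval, if_pos hx, if_neg hx']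
        have e1 : s * a * (s * a) * wval a s l' = s * a * (s * (a * wval a s l')) := by noncomm_ring
        have e2 : s * a * a * wval a s l = s * a * (a * wval a s l) := by noncomm_ring
        rw [e1, e2]
        apply s_left
        have h1 : SL P s (a * s ^ 2) := ⟨y, d, hy, hd, hsy⟩
        have h2 : LE P (a * s ^ 2) (a * wval a s l) := c_left (v_le hP h hy hsy l) a
        exact c_trans_left hP h (c_of_mul hP _ _) (c_trans_right hP h h1 h2)
      · rw [wval, wval]
        exact s_left (ih l' hlt) _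

end order

theorem wval_append (a s : B) (l l' : List (Fin 2)) :
    wval a s (l ++ l') = wval a s l * wval a s l' := by
  induction l with
  | nil => simp [wval]
  | cons x l ih => rw [List.cons_append, wval, wval, ih, ← mul_assoc]

theorem wval_pow (a s : B) (l : List (Fin 2)) (n : ℕ) : ∃ L, wval a s L = wval a s l ^ n := by
  induction n with
  | zero => exact ⟨[], by simp [wval]⟩
  | succ n ih =>
    obtain ⟨L, hL⟩ := ih
    exact ⟨L ++ l, by rw [wval_append, hL, pow_succ]⟩

section main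

variable {M : Set B} {a s k c c' : B} {l l' : List (Fin 2)}

/-- the two terms of minimal value (`c ≤ c'`) lead to a contradiction -/
theorem fsp_main (hM : CPS M) (h : RD B)
    (hks : ∀ i j, ¬ KR M (s ^ j * k ^ i)) (hkc : ∀ x, k * x = x * k)
    (hcc : ∀ x, c * x = x * c) (hcc' : ∀ x, c' * x = x * c')
    (h0 : SL M s (a * s ^ 3))
    (hne : l ≠ l')
    (g1 : LE M (c * wval a s l) (c' * wval a s l'))
    (g2 : LE M (c' * wval a s l') (c * wval a s l))
    (g3 : LE M (k * s ^ 2) (c * wval a s l))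
    (g4 : LE M (k * s ^ 2) (c' * wval a s l'))
    (g5 : LE M c c') : False := by
  obtain ⟨W, hW⟩ : ∃ W, W = wval a s l := ⟨_, rfl⟩
  obtain ⟨W', hW'⟩ : ∃ W', W' = wval a s l' := ⟨_, rfl⟩
  rw [← hW, ← hW'] at g1 g2
  rw [← hW] at g3
  rw [← hW'] at g4
  have hcn : ∀ n x, c ^ n * x = x * c ^ n := fun n x => (Commute.pow_left (hcc x) n).eq
  have hcn' : ∀ n x, c' ^ n * x = x * c' ^ n := fun n x => (Commute.pow_left (hcc' x) n).eq
  have hkn : ∀ n x, k ^ n * x = x * k ^ n := fun n x => (Commute.pow_left (hkc x) n).eq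
  -- s < a s^2
  have h01 : SL M s (a * s ^ 2) := by
    refine c_trans_right hM h h0 ?_
    have : a * s ^ 3 = a * s ^ 2 * s := by rw [pow_succ s 2, mul_assoc]
    rw [this]
    exact c_of_mul hM _ _
  obtain ⟨y, d, hy, hd, hsy⟩ := h01
  have hword : ∀ L, LE M (s ^ 2) (wval a s L) := fun L => v_le hM h hy hsy L
  have A1 : LE M (k * s ^ 2) c := c_trans hM h g3 (c_of_mul hM _ _)
  have A1' : LE M (k * s ^ 2) c' := c_trans hM h g4 (c_of_mul hM _ _)
  have A2 : ∀ b : B, (∀ x, b * x = x * b) → LE M (k * s ^ 2) b →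
      ∀ n, LE M (k ^ n * s ^ (2 * n)) (b ^ n) := by
    intro b hb hkb n
    have hbn : ∀ n x, b ^ n * x = x * b ^ n := fun n x => (Commute.pow_left (hb x) n).eq
    induction n with
    | zero => simpa using c_refl hM (1 : B)
    | succ n ih =>
      have e1 : k ^ (n + 1) * s ^ (2 * (n + 1)) = k * s ^ 2 * (k ^ n * s ^ (2 * n)) := by
        have e0 : 2 * (n + 1) = 2 + 2 * n := by ring
        calc k ^ (n + 1) * s ^ (2 * (n + 1)) = k * k ^ n * (s ^ 2 * s ^ (2 * n)) := by
              rw [e0, pow_add s, pow_succ' k]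
          _ = k * (k ^ n * s ^ 2) * s ^ (2 * n) := by noncomm_ring
          _ = k * (s ^ 2 * k ^ n) * s ^ (2 * n) := by rw [hkn n (s ^ 2)]
          _ = k * s ^ 2 * (k ^ n * s ^ (2 * n)) := by noncomm_ring
      rw [e1]
      refine c_trans hM h (c_left ih _) ?_
      have e2 : LE M (b ^ n * (k * s ^ 2)) (b ^ n * b) := c_left hkb _
      rw [hbn n (k * s ^ 2), ← pow_succ] at e2
      exact e2
  have A3 : ∀ b : B, (∀ x, b * x = x * b) → LE M (k * s ^ 2) b →
      ∀ n j, ¬ KR M (b ^ n * s ^ j) := by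
    intro b hb hkb n j hkr
    have hbn : ∀ n x, b ^ n * x = x * b ^ n := fun n x => (Commute.pow_left (hb x) n).eq
    have e1 : LE M (s ^ j * (k ^ n * s ^ (2 * n))) (s ^ j * b ^ n) := c_left (A2 b hb hkb n) _
    rw [← hbn] at e1
    have e2 := c_kr_le hM h e1 hkr
    rw [hkn, ← mul_assoc, ← pow_add] at e2
    exact hks _ _ e2
  have A3c := A3 c hcc A1
  have A3c' := A3 c' hcc' A1'
  have A3n : ∀ n, ¬ KR M (c ^ n) := by
    intro n hn
    apply A3c n 0
    rwa [pow_zero, mul_one]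
  have A4 : ∀ n, ¬ KR M (c ^ n * W) := by
    intro n hn
    apply A3c n 2
    refine c_kr_le hM h (c_left ?_ _) hn
    rw [hW]
    exact hword l
  have hs1 : ¬ KR M s := by
    have := hks 0 1
    rwa [pow_one, pow_zero, mul_one] at this
  -- (2)
  have B1 : LE M (c' * W') c := c_trans hM h g2 (c_of_mul hM _ _)
  have B2 : ∀ n, LE M (c' ^ n * W' ^ n) (c ^ n) := by
    intro n
    induction n with
    | zero => simpa using c_refl hM (1 : B)
    | succ n ih =>
      have e1 : c' ^ (n + 1) * W' ^ (n + 1) = c' * W' * (c' ^ n * W' ^ n) := by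
        rw [pow_succ', pow_succ', mul_assoc, mul_assoc, ← mul_assoc (c' ^ n) W', hcn' n W',
          mul_assoc]
      rw [e1]
      refine c_trans hM h (c_left ih _) ?_
      rw [← hcn n, pow_succ]
      exact c_left B1 _
  have B2' : ∀ n, LE M (c' ^ n * s ^ 2) (c ^ n) := by
    intro n
    obtain ⟨L, hL⟩ := wval_pow a s l' n
    refine c_trans hM h (c_left ?_ _) (B2 n)
    rw [hW', ← hL]
    exact hword L
  -- (3)
  have B3 : ∀ n, LE M (c' ^ n * s) (c ^ n) := by
    intro n
    by_contra hn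
    have e1 : SL M (c ^ n) (c' ^ n * s) := c_total hM h hn
    obtain ⟨v, m, hv, hm, e2⟩ := e1
    have e3 : SL M (c' ^ (2 * n) * s ^ 2 * m) (c ^ (2 * n)) := c_mul_mem hM h (B2' (2 * n)) hm
    have e4 : c ^ n * (c' ^ n * s) * v = c' ^ (2 * n) * s ^ 2 * m := by
      calc c ^ n * (c' ^ n * s) * v = c' ^ n * s * (c ^ n * v) := by
            rw [hcn n, mul_assoc]
        _ = c' ^ n * s * (c' ^ n * s * m) := by rw [e2]
        _ = c' ^ n * (s * c' ^ n) * s * m := by noncomm_ring
        _ = c' ^ n * (c' ^ n * s) * s * m := by rw [hcn' n s]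
        _ = c' ^ (2 * n) * s ^ 2 * m := by
            rw [two_mul, pow_add, pow_two]
            noncomm_ring
    rw [← e4] at e3
    have e5 : SL M (c ^ n * (c' ^ n * s)) (c ^ n * c ^ n) := by
      have e6 := c_sl_of_mul hM hv e3
      rwa [two_mul, pow_add] at e6
    have e7 : SL M (c' ^ n * s) (c ^ n) := by
      refine c_cancel_sl hM h e5 ?_
      rw [← pow_add]
      exact A3n _
    have e8 : SL M (c ^ n) (c ^ n) :=
      c_trans_left hM h (c_le_of_sl ⟨v, m, hv, hm, e2⟩) e7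
    exact A3n n (c_self hM h e8)
  have C1 : ∀ n, LE M (c ^ n) (c' ^ n) := by
    intro n
    induction n with
    | zero => simpa using c_refl hM (1 : B)
    | succ n ih =>
      have e1 : LE M (c * c ^ n) (c * c' ^ n) := c_left ih _
      have e2 : LE M (c' ^ n * c) (c' ^ n * c') := c_left g5 _
      rw [pow_succ', pow_succ]
      refine c_trans hM h e1 ?_
      rw [hcc]
      exact e2
  -- (4)
  obtain ⟨P, hPdef⟩ : ∃ P : Set B, ∀ x, x ∈ P ↔ ∀ n, SL M (c' ^ n * x) (c ^ n) :=
    ⟨{x | ∀ n, SL M (c' ^ n * x) (c ^ n)}, fun _ => Iff.rfl⟩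
  have hPn : ∀ x, x ∉ P → ∃ n, LE M (c ^ n) (c' ^ n * x) := by
    intro x hx
    rw [hPdef] at hx
    push Not at hx
    obtain ⟨n, hn⟩ := hx
    exact ⟨n, c_total' hM h hn⟩
  have hP : CPS P := by
    constructor
    · rw [hPdef]
      intro n
      rw [mul_zero]
      exact c_zero hM _
    · intro x hx y hy
      rw [hPdef] at hx hy ⊢
      intro n
      rw [mul_add]
      exact c_add hM h (hx n) (hy n)
    · intro x hx r
      rw [hPdef] at hx ⊢
      intro n
      rw [← mul_assoc]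
      exact c_trans_left hM h (c_of_mul hM _ _) (hx n)
    · intro x hx r
      rw [hPdef] at hx ⊢
      intro n
      rw [← mul_assoc, hcn' n r, mul_assoc]
      refine c_trans_right hM h (s_left (hx n) r) ?_
      rw [← hcn n r]
      exact c_of_mul hM _ _
    · rw [hPdef]
      intro hn
      have := hn 0
      rw [pow_zero, pow_zero, mul_one] at this
      obtain ⟨t, ht, h1⟩ := c_self hM h this
      rw [one_mul] at h1
      rw [h1] at ht
      exact ht hM.zero
    · intro x y hx hy hxy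
      obtain ⟨n, hn⟩ := hPn x hx
      obtain ⟨m, hm⟩ := hPn y hy
      rw [hPdef] at hxy
      have e1 : LE M (c ^ (n + m)) (c' ^ (n + m) * (x * y)) := by
        have e2 : LE M (c ^ m * c ^ n) (c ^ m * (c' ^ n * x)) := c_left hn _
        have e3 : LE M (c' ^ n * x * c ^ m) (c' ^ n * x * (c' ^ m * y)) := c_left hm _
        rw [← hcn m] at e3
        have e4 := c_trans hM h e2 e3
        have e5 : c' ^ n * x * (c' ^ m * y) = c' ^ (n + m) * (x * y) := by
          calc c' ^ n * x * (c' ^ m * y) = c' ^ n * (x * c' ^ m) * y := by noncomm_ring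
            _ = c' ^ n * (c' ^ m * x) * y := by rw [hcn' m x]
            _ = c' ^ (n + m) * (x * y) := by rw [pow_add]; noncomm_ring
        rw [e5, ← pow_add, add_comm m n] at e4
        exact e4
      exact A3n _ (c_kr_le hM h e1 (c_kr hM h e1 (hxy _)) |> fun hk => hk)
  have hPM : ∀ x, x ∉ M → x ∉ P := by
    intro x hx hxP
    rw [hPdef] at hxP
    obtain ⟨v, m, hv, hm, e1⟩ := hxP 0
    rw [pow_zero, pow_zero, one_mul, one_mul] at e1
    exact hM.prime _ _ hx hv (by rw [e1]; exact hm)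
  have hPn1 : ∀ x, x ∉ P → ∃ n, 1 ≤ n ∧ LE M (c ^ n) (c' ^ n * x) := by
    intro x hx
    obtain ⟨n, hn⟩ := hPn x hx
    refine ⟨n + 1, by omega, ?_⟩
    have e1 : LE M (c * c ^ n) (c * (c' ^ n * x)) := c_left hn _
    have e2 : LE M (c' ^ n * x * c) (c' ^ n * x * c') := c_left g5 _
    rw [← hcc] at e2
    have e3 := c_trans hM h e1 e2
    rw [← pow_succ', ← hcc', ← mul_assoc, ← pow_succ'] at e3
    exact e3
  -- (5)
  have E1 : LE P W W' := by
    by_contra hn
    obtain ⟨v, p, hv, hp, e1⟩ := c_total hP h hn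
    obtain ⟨n, hn1, e2⟩ := hPn1 v hv
    -- W' v = W p
    have e3 : LE M (c ^ n * (c * W)) (c ^ n * (c' * W')) := c_left g1 _
    have e4 : LE M (c' * W' * c ^ n) (c' * W' * (c' ^ n * v)) := c_left e2 _
    rw [← hcn n] at e4
    have e5 := c_trans hM h e3 e4
    have e6 : c' * W' * (c' ^ n * v) = W * (c' ^ (n + 1) * p) := by
      calc c' * W' * (c' ^ n * v) = c' * (W' * c' ^ n) * v := by noncomm_ring
        _ = c' * (c' ^ n * W') * v := by rw [hcn' n W']
        _ = c' ^ (n + 1) * (W' * v) := by rw [pow_succ']; noncomm_ring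
        _ = c' ^ (n + 1) * (W * p) := by rw [e1]
        _ = c' ^ (n + 1) * W * p := by rw [mul_assoc]
        _ = W * (c' ^ (n + 1) * p) := by rw [hcn' (n + 1) W, mul_assoc]
    have e7 : SL M (W * (c' ^ (n + 1) * p)) (W * c ^ (n + 1)) :=
      s_left ((hPdef p).1 hp (n + 1)) W
    rw [e6] at e5
    have e8 : c ^ n * (c * W) = c ^ (n + 1) * W := by rw [pow_succ, mul_assoc]
    rw [e8] at e5
    rw [← hcn (n + 1) W] at e7
    exact A4 (n + 1) (c_self hM h (c_trans_left hM h e5 e7))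
  have E2 : LE P W' W := by
    by_contra hn
    obtain ⟨v, p, hv, hp, e1⟩ := c_total hP h hn
    obtain ⟨n, hn1, e2⟩ := hPn1 v hv
    -- W v = W' p
    obtain ⟨n', rfl⟩ : ∃ n', n = n' + 1 := ⟨n - 1, by omega⟩
    have e3 : LE M (W * c ^ (n' + 1)) (W * (c' ^ (n' + 1) * v)) := c_left e2 _
    have e4 : W * (c' ^ (n' + 1) * v) = W' * (c' ^ (n' + 1) * p) := by
      calc W * (c' ^ (n' + 1) * v) = W * c' ^ (n' + 1) * v := by rw [mul_assoc]
        _ = c' ^ (n' + 1) * (W * v) := by rw [← hcn' (n' + 1) W, mul_assoc]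
        _ = c' ^ (n' + 1) * (W' * p) := by rw [e1]
        _ = c' ^ (n' + 1) * W' * p := by rw [mul_assoc]
        _ = W' * (c' ^ (n' + 1) * p) := by rw [hcn' (n' + 1) W', mul_assoc]
    have e5 : SL M (W' * (c' ^ (n' + 1) * p)) (W' * c ^ (n' + 1)) :=
      s_left ((hPdef p).1 hp (n' + 1)) W'
    have e6 : LE M (c * W') (c * W) := by
      have e7 : LE M (W' * c) (W' * c') := c_left g5 _
      rw [← hcc, ← hcc'] at e7
      exact c_trans hM h e7 g2
    have e8 : LE M (c ^ n' * (c * W')) (c ^ n' * (c * W)) := c_left e6 _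
    rw [← mul_assoc, ← mul_assoc, ← pow_succ] at e8
    rw [e4, ← hcn (n' + 1) W] at e3
    rw [← hcn (n' + 1) W'] at e5
    exact A4 (n' + 1) (c_self hM h (c_trans_left hM h e3 (c_trans_right hM h e5 e8)))
  -- (6)
  have F1 : LE P (a * s ^ 2) s := by
    by_contra hn
    obtain ⟨y', d', hy', hd', hsy'⟩ := c_total hP h hn
    have hkrW : KR P W := by
      rcases lt_trichotomy l l' with hl | hl | hl
      · have e1 := v_sl hP h hy' hd' hsy' l l' hl
        rw [← hW, ← hW'] at e1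
        exact c_kr_le hP h E1 (c_kr hP h (x := W) (y := W') E1 e1)
      · exact absurd hl hne
      · have e1 := v_sl hP h hy' hd' hsy' l' l hl
        rw [← hW, ← hW'] at e1
        exact c_kr hP h (x := W') (y := W) E2 e1
    obtain ⟨v, hv, e1⟩ := hkrW
    obtain ⟨n, e2⟩ := hPn v hv
    have e3 : LE M (W * c ^ n) (W * (c' ^ n * v)) := c_left e2 _
    have e4 : W * (c' ^ n * v) = 0 := by
      rw [← mul_assoc, ← hcn' n W, mul_assoc, e1, mul_zero]
    rw [e4, ← hcn n W] at e3
    exact A4 n (c_kr_le hM h e3 ⟨1, hM.one, by rw [zero_mul]⟩)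
  obtain ⟨v, b, hv, e1⟩ := F1
  obtain ⟨n, w1, r1, hw1, e2⟩ := hPn v hv
  have G1 : LE M (a * s ^ 2 * c ^ n) (s * c' ^ n) := by
    refine ⟨w1, b * r1, hw1, ?_⟩
    calc a * s ^ 2 * c ^ n * w1 = a * s ^ 2 * (c ^ n * w1) := by rw [mul_assoc]
      _ = a * s ^ 2 * (c' ^ n * v * r1) := by rw [e2]
      _ = a * s ^ 2 * c' ^ n * (v * r1) := by noncomm_ring
      _ = c' ^ n * (a * s ^ 2) * (v * r1) := by rw [hcn' n (a * s ^ 2)]
      _ = c' ^ n * (a * s ^ 2 * v) * r1 := by noncomm_ring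
      _ = c' ^ n * (s * b) * r1 := by rw [e1]
      _ = c' ^ n * s * (b * r1) := by noncomm_ring
      _ = s * c' ^ n * (b * r1) := by rw [hcn' n s]
  have G2 : LE M (a * s ^ 2 * (c' ^ n * s)) (a * s ^ 2 * c ^ n) := c_left (B3 n) _
  have G3 : LE M (c' ^ n * (a * s ^ 3)) (c' ^ n * s) := by
    have e3 : c' ^ n * (a * s ^ 3) = a * s ^ 2 * (c' ^ n * s) := by
      rw [hcn' n (a * s ^ 3), hcn' n s, pow_succ s 2]
      noncomm_ring
    rw [e3, hcn' n s]
    rw [hcn' n s] at G2
    exact c_trans hM h G2 G1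
  by_cases hk : KR M (c' ^ n * (a * s ^ 3))
  · have e3 : LE M (c' ^ n * s) (c' ^ n * (a * s ^ 3)) := c_left (c_le_of_sl h0) _
    apply A3c' n 1
    rw [pow_one]
    exact c_kr_le hM h e3 hk
  · have e3 : LE M (a * s ^ 3) s := c_cancel_le hM h G3 hk
    exact hs1 (c_kr_le hM h (c_le_of_sl h0) (c_kr_le hM h e3 (c_kr hM h e3 h0)))

end main

theorem exists_largest {M : Set B} (hM : CPS M) (h : RD B) {ι : Type*} (F : Finset ι) (g : ι → B)
    (hF : F.Nonempty) : ∃ u ∈ F, ∀ w ∈ F, LE M (g w) (g u) := by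
  classical
  induction hF using Finset.Nonempty.cons_induction with
  | singleton a => exact ⟨a, Finset.mem_singleton_self a, fun w hw => by
      rw [Finset.mem_singleton.1 hw]; exact c_refl hM _⟩
  | cons a F ha hF ih =>
    obtain ⟨u, hu, h1⟩ := ih
    by_cases h2 : LE M (g a) (g u)
    · refine ⟨u, Finset.mem_cons_of_mem hu, ?_⟩
      intro w hw
      rcases Finset.mem_cons.1 hw with rfl | hw
      · exact h2
      · exact h1 w hw
    · refine ⟨a, Finset.mem_cons_self a F, ?_⟩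
      intro w hw
      rcases Finset.mem_cons.1 hw with rfl | hw
      · exact c_refl hM _
      · exact c_trans hM h (h1 w hw) (c_le_of_sl (c_total hM h h2))

/-- local form: a relation at `M` whose coefficients generate an element `k` that is regular at `M`
is impossible if `a s ^ 3` is not in `s A` at `M`. -/
theorem fsp_core {M : Set B} {a s k : B} (hM : CPS M) (h : RD B)
    (hks : ∀ i j, ¬ KR M (s ^ j * k ^ i)) (hkc : ∀ x, k * x = x * k)
    (h0 : SL M s (a * s ^ 3)) (F : Finset (List (Fin 2))) (c e : List (Fin 2) → B)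
    (hc : ∀ w x, c w * x = x * c w) (hk : k = ∑ w ∈ F, c w * e w)
    (hS : KR M (∑ w ∈ F, c w * wval a s w)) : False := by
  classical
  have hk1 : ¬ KR M k := by
    have := hks 1 0
    rwa [pow_zero, one_mul, pow_one] at this
  have h01 : SL M s (a * s ^ 2) := by
    refine c_trans_right hM h h0 ?_
    have : a * s ^ 3 = a * s ^ 2 * s := by rw [pow_succ s 2, mul_assoc]
    rw [this]
    exact c_of_mul hM _ _
  obtain ⟨y, d, hy, hd, hsy⟩ := h01
  have hword : ∀ L, LE M (s ^ 2) (wval a s L) := fun L => v_le hM h hy hsy L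
  have h1 : ∃ w ∈ F, LE M k (c w) := by
    by_contra hn
    push Not at hn
    apply hk1
    apply c_self hM h
    have h2 : SL M (∑ w ∈ F, c w * e w) k := by
      apply c_sum hM h
      intro w hw
      exact c_trans_left hM h (c_of_mul hM _ _) (c_total hM h (hn w hw))
    rwa [← hk] at h2
  obtain ⟨w0, hw0, h2⟩ := h1
  have h3 : LE M (k * s ^ 2) (c w0 * wval a s w0) := by
    have e1 : LE M (k * s ^ 2) (k * wval a s w0) := c_left (hword w0) k
    have e2 : LE M (wval a s w0 * k) (wval a s w0 * c w0) := c_left h2 _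
    rw [hc w0 (wval a s w0)]
    refine c_trans hM h e1 ?_
    rw [hkc]
    exact e2
  obtain ⟨u, hu, h4⟩ := exists_largest hM h F (fun w => c w * wval a s w) ⟨w0, hw0⟩
  have h5 : LE M (k * s ^ 2) (c u * wval a s u) := c_trans hM h h3 (h4 w0 hw0)
  have hkru : ¬ KR M (c u * wval a s u) := by
    intro hn
    have h6 := c_kr_le hM h h5 hn
    rw [hkc] at h6
    have h7 := hks 1 2
    rw [pow_one] at h7
    exact h7 h6
  have h6 : ∃ u' ∈ F, u' ≠ u ∧ LE M (c u * wval a s u) (c u' * wval a s u') := by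
    by_contra hn
    push Not at hn
    apply hkru
    apply c_self hM h
    have h7 : SL M (∑ w ∈ F.erase u, c w * wval a s w) (c u * wval a s u) := by
      apply c_sum hM h
      intro w hw
      exact c_total hM h (hn w (Finset.mem_of_mem_erase hw) (Finset.ne_of_mem_erase hw))
    have h8 : SL M (∑ w ∈ F, c w * wval a s w) (c u * wval a s u) := by
      obtain ⟨t, ht, h9⟩ := hS
      exact ⟨t, 0, ht, hM.zero, by rw [h9, mul_zero]⟩
    have h9 : c u * wval a s u = (∑ w ∈ F, c w * wval a s w) +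
        -(∑ w ∈ F.erase u, c w * wval a s w) := by
      rw [← Finset.add_sum_erase F (fun w => c w * wval a s w) hu]
      abel
    have h10 := c_add hM h h8 (c_neg hM h7)
    rwa [← h9] at h10
  obtain ⟨u', hu', hne, h7⟩ := h6
  have h8 : LE M (k * s ^ 2) (c u' * wval a s u') := c_trans hM h h5 h7
  by_cases h9 : LE M (c u) (c u')
  · exact fsp_main hM h hks hkc (hc u) (hc u') h0 hne.symm h7 (h4 u' hu') h5 h8 h9
  · exact fsp_main hM h hks hkc (hc u') (hc u) h0 hne (h4 u' hu') h7 h8 h5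
      (c_le_of_sl (c_total hM h h9))

/-- Theorem FS+, local form. -/
theorem fsp_local (h : RD B) (a s : B) (hs : ∀ x, s * x = 0 → x = 0)
    (hloc : ∀ M : Set B, MR M → ∃ (F : Finset (List (Fin 2))) (c e : List (Fin 2) → B),
      (∀ w x, c w * x = x * c w) ∧ (∀ x, (∑ w ∈ F, c w * e w) * x = x * ∑ w ∈ F, c w * e w) ∧
      KR M (∑ w ∈ F, c w * wval a s w) ∧
      ∀ x, KR M ((∑ w ∈ F, c w * e w) * x) → KR M x) : ∃ b, a * s ^ 3 = s * b := by
  by_contra hno
  obtain ⟨M, hM, hsub⟩ := exists_MR {x : B | ∃ b, a * s ^ 3 * x = s * b}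
    ⟨0, by simp⟩
    (by
      rintro x ⟨b, hb⟩ z ⟨b', hb'⟩
      exact ⟨b + b', by rw [mul_add, hb, hb', mul_add]⟩)
    (by
      rintro x ⟨b, hb⟩ r
      exact ⟨b * r, by rw [← mul_assoc, hb, mul_assoc]⟩)
    (by
      rintro ⟨b, hb⟩
      exact hno ⟨b, by rw [← hb, mul_one]⟩)
  have hC : CPS M := cps_of_MR hM h
  obtain ⟨x, y, c', d, h1, h2, h3⟩ := h (a * s ^ 3) s
  have hx : x ∈ M := hsub ⟨c', h2⟩
  have hd : d ∈ M := hsub ⟨y, h3.symm⟩
  have hy : y ∉ M := by
    intro hy
    apply hM.one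
    rw [← h1]
    exact hM.add _ hx _ hy
  have h0 : SL M s (a * s ^ 3) := ⟨y, d, hy, hd, h3⟩
  obtain ⟨F, c, e, hc, hkc, hS, hreg⟩ := hloc M hM
  obtain ⟨k, hk⟩ : ∃ k, k = ∑ w ∈ F, c w * e w := ⟨_, rfl⟩
  rw [← hk] at hkc hreg
  refine fsp_core hC h ?_ hkc h0 F c e hc hk hS
  rintro i j ⟨t, ht, h4⟩
  have h5 : ∀ j, s ^ j * (k ^ i * t) = 0 → k ^ i * t = 0 := by
    intro j
    induction j with
    | zero => intro h6; simpa using h6
    | succ j ih =>
      intro h6
      apply ih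
      apply hs
      rw [← mul_assoc, ← pow_succ']
      exact h6
  have h6 : k ^ i * t = 0 := h5 j (by rw [← mul_assoc]; exact h4)
  have h7 : ∀ i, KR M (k ^ i * t) → KR M t := by
    intro i
    induction i with
    | zero => intro h8; simpa using h8
    | succ i ih =>
      intro h8
      apply ih
      apply hreg
      rw [← mul_assoc, ← pow_succ']
      exact h8
  obtain ⟨t', ht', h8⟩ := h7 i ⟨1, hM.one, by rw [mul_one]; exact h6⟩
  have h9 := hM.prime h ht ht'
  rw [h8] at h9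
  exact h9 hM.zero

end Pool.Agent.Helper78_DR2
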