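import Pool.Agent.Helper93_DR.Core

/-!
Row LOC (MP_64bfc7_al, theorem CR of helper90): division rings of fractions of the local domains of
a reduced two-sided distributive ring.
-/

set_option autoImplicit false

universe u

namespace Pool.Agent.Helper78_DR2

open Pool.Agent.Helper93_DR nonZeroDivisors

/-- A left Ore domain has a division ring of left fractions; if it is also right Ore then every
element is a right fraction. -/
theorem loc_domain {B : Type u} [Ring B] [Nontrivial B] [NoZeroDivisors B]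
    (hL : ∀ a s : B, s ≠ 0 → ∃ b t : B, t ≠ 0 ∧ t * a = b * s)
    (hR : ∀ a s : B, s ≠ 0 → ∃ b t : B, t ≠ 0 ∧ a * t = s * b) :
    ∃ (D : Type u) (_ : DivisionRing D) (f : B →+* D), Function.Injective f ∧
      (∀ q : D, ∃ b t : B, t ≠ 0 ∧ q = (f t)⁻¹ * f b) ∧
      (∀ q : D, ∃ b t : B, t ≠ 0 ∧ q = f b * (f t)⁻¹) := by
  have hne : Nonempty (OreLocalization.OreSet B⁰) := by
    rw [OreLocalization.nonempty_oreSet_iff_of_noZeroDivisors]
    intro r s
    obtain ⟨b, t, ht, h1⟩ := hL r s (nonZeroDivisors.coe_ne_zero s)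
    exact ⟨b, ⟨t, mem_nonZeroDivisors_of_ne_zero ht⟩, h1⟩
  obtain ⟨hO⟩ := hne
  have hinj : Function.Injective (OreLocalization.numeratorRingHom : B →+* OreLocalization B⁰ B) := by
    intro x y hxy
    have hS : B⁰ ≤ nonZeroDivisorsLeft B := inf_le_left
    exact OreLocalization.numeratorHom_inj (S := B⁰) hS hxy
  have hleft : ∀ q : OreLocalization B⁰ B, ∃ b t : B, t ≠ 0 ∧
      q = ((OreLocalization.numeratorRingHom : B →+* OreLocalization B⁰ B) t)⁻¹ *
        (OreLocalization.numeratorRingHom : B →+* OreLocalization B⁰ B) b := by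
    intro q
    induction q with | _ r s
    refine ⟨r, s, nonZeroDivisors.coe_ne_zero s, ?_⟩
    have h0 : (OreLocalization.numeratorRingHom : B →+* OreLocalization B⁰ B) (s : B) ≠ 0 := by
      intro h
      apply nonZeroDivisors.coe_ne_zero s
      apply hinj
      rw [h, map_zero]
    rw [eq_inv_mul_iff_mul_eq₀ h0]
    exact OreLocalization.mul_cancel (r := r) (s := s) (t := 1)
  refine ⟨OreLocalization B⁰ B, inferInstance, OreLocalization.numeratorRingHom, hinj, hleft, ?_⟩
  intro q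
  obtain ⟨b, t, ht, h1⟩ := hleft q
  obtain ⟨b', t', ht', h2⟩ := hR b t ht
  refine ⟨b', t', ht', ?_⟩
  have g1 : (OreLocalization.numeratorRingHom : B →+* OreLocalization B⁰ B) t ≠ 0 := by
    intro h
    apply ht
    apply hinj
    rw [h, map_zero]
  have g2 : (OreLocalization.numeratorRingHom : B →+* OreLocalization B⁰ B) t' ≠ 0 := by
    intro h
    apply ht'
    apply hinj
    rw [h, map_zero]
  rw [eq_mul_inv_iff_mul_eq₀ g2, h1, mul_assoc, inv_mul_eq_iff_eq_mul₀ g1, ← map_mul, ← map_mul, h2]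

/-- the set of elements that vanish at `M` -/
def PM {A : Type u} [Ring A] (M : Set A) : Set A := {x | ∃ t, t ∉ M ∧ x * t = 0}

theorem mem_PM {A : Type u} [Ring A] {M : Set A} {x : A} : x ∈ PM M ↔ ∃ t, t ∉ M ∧ x * t = 0 :=
  Iff.rfl

theorem PM_prime {A : Type u} [Ring A] (hred : ∀ x : A, x * x = 0 → x = 0) (h : RD A) {M : Set A}
    (hM : MR M) {x y : A} (hxy : x * y ∈ PM M) : x ∈ PM M ∨ y ∈ PM M := by
  obtain ⟨t, ht, h1⟩ := hxy
  obtain ⟨z, hz⟩ : ∃ z, z = y * t := ⟨_, rfl⟩
  have h2 : x * z = 0 := by rw [hz, ← mul_assoc, h1]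
  have h3 : z * x = 0 := by
    apply hred
    have : z * x * (z * x) = z * (x * z) * x := by noncomm_ring
    rw [this, h2, mul_zero, zero_mul]
  have h4 : ∀ r, x * r * z = 0 := by
    intro r
    apply hred
    have : x * r * z * (x * r * z) = x * r * (z * x) * r * z := by noncomm_ring
    rw [this, h3, mul_zero, zero_mul, zero_mul]
  have h5 : ∀ r, z * r * x = 0 := by
    intro r
    apply hred
    have : z * r * x * (z * r * x) = z * r * (x * z) * r * x := by noncomm_ring
    rw [this, h2, mul_zero, zero_mul, zero_mul]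
  obtain ⟨p, q, c, d, e1, e2, e3⟩ := h x z
  by_cases hp : p ∈ M
  · right
    have hq : q ∉ M := by
      intro hq
      apply hM.one
      rw [← e1]
      exact hM.add _ hp _ hq
    refine ⟨t * q, hM.prime h ht hq, ?_⟩
    rw [← mul_assoc, ← hz]
    apply hred
    have : z * q * (z * q) = z * q * (x * d) := by rw [e3]
    rw [this, ← mul_assoc, h5 q, zero_mul]
  · left
    refine ⟨p, hp, ?_⟩
    apply hred
    have : x * p * (x * p) = x * p * (z * c) := by rw [e2]
    rw [this, ← mul_assoc, h4 p, zero_mul]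

/-- For a maximal right ideal `M` of a reduced two-sided distributive ring `A` there is a ring
homomorphism from `A` to a division ring whose kernel is the set of elements that vanish at `M` and
such that every element of the division ring is both a left and a right fraction. -/
theorem loc_prime {A : Type u} [Ring A] (hred : ∀ x : A, x * x = 0 → x = 0) (h : RD A)
    (hop : RD Aᵐᵒᵖ) {M : Set A} (hM : MR M) :
    ∃ (D : Type u) (_ : DivisionRing D) (f : A →+* D),
      (∀ x, f x = 0 ↔ ∃ t, t ∉ M ∧ x * t = 0) ∧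
      (∀ q : D, ∃ b t : A, f t ≠ 0 ∧ q = (f t)⁻¹ * f b) ∧
      (∀ q : D, ∃ b t : A, f t ≠ 0 ∧ q = f b * (f t)⁻¹) := by
  obtain ⟨P, hP⟩ : ∃ P : Ideal A, ∀ x, x ∈ P ↔ x ∈ PM M := by
    refine ⟨{ carrier := PM M, add_mem' := ?_, zero_mem' := ⟨1, hM.one, by simp⟩,
              smul_mem' := ?_ }, fun x => Iff.rfl⟩
    · rintro a b ⟨t, ht, h1⟩ ⟨t', ht', h2⟩
      obtain ⟨x', w, hx', h3⟩ := hM.ore h t ht'
      refine ⟨t * x', hM.prime h ht hx', ?_⟩
      rw [add_mul, ← mul_assoc a, h1, zero_mul, h3, ← mul_assoc, h2, zero_mul, add_zero]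
    · rintro c x ⟨t, ht, h1⟩
      exact ⟨t, ht, by rw [smul_eq_mul, mul_assoc, h1, mul_zero]⟩
  have hts : P.IsTwoSided := by
    constructor
    intro a b ha
    rw [hP] at ha ⊢
    obtain ⟨t, ht, h1⟩ := ha
    obtain ⟨x', w, hx', h3⟩ := hM.ore h b ht
    exact ⟨x', hx', by rw [mul_assoc, h3, ← mul_assoc, h1, zero_mul]⟩
  have h1P : (1 : A) ∉ P := by
    rw [hP]
    rintro ⟨t, ht, h1⟩
    rw [one_mul] at h1
    rw [h1] at ht
    exact ht hM.zero
  have hmk : ∀ x : A, Ideal.Quotient.mk P x = 0 ↔ x ∈ PM M := by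
    intro x
    rw [Ideal.Quotient.eq_zero_iff_mem, hP]
  have hnt : Nontrivial (A ⧸ P) := by
    refine ⟨⟨1, 0, ?_⟩⟩
    intro h0
    apply h1P
    rw [hP, ← hmk, map_one]
    exact h0
  have hsurj : Function.Surjective (Ideal.Quotient.mk P) := Ideal.Quotient.mk_surjective
  have hnz : NoZeroDivisors (A ⧸ P) := by
    constructor
    intro a b hab
    obtain ⟨x, rfl⟩ := hsurj a
    obtain ⟨y, rfl⟩ := hsurj b
    rw [← map_mul, hmk] at hab
    rcases PM_prime hred h hM hab with h1 | h1
    · left; rwa [hmk]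
    · right; rwa [hmk]
  have hR : ∀ a s : A ⧸ P, s ≠ 0 → ∃ b t : A ⧸ P, t ≠ 0 ∧ a * t = s * b := by
    intro a s hs
    by_cases ha : a = 0
    · exact ⟨0, 1, one_ne_zero, by rw [ha, zero_mul, mul_zero]⟩
    obtain ⟨x, rfl⟩ := hsurj a
    obtain ⟨y, rfl⟩ := hsurj s
    obtain ⟨p, q, c, d, e1, e2, e3⟩ := h x y
    by_cases hp : Ideal.Quotient.mk P p = 0
    · have hq : Ideal.Quotient.mk P q = 1 := by
        have := congrArg (Ideal.Quotient.mk P) e1
        rw [map_add, hp, zero_add, map_one] at this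
        exact this
      have h2 : Ideal.Quotient.mk P y = Ideal.Quotient.mk P x * Ideal.Quotient.mk P d := by
        have := congrArg (Ideal.Quotient.mk P) e3
        rw [map_mul, map_mul, hq, mul_one] at this
        exact this
      refine ⟨1, Ideal.Quotient.mk P d, ?_, by rw [← h2, mul_one]⟩
      intro h0
      apply hs
      rw [h2, h0, mul_zero]
    · exact ⟨Ideal.Quotient.mk P c, Ideal.Quotient.mk P p, hp, by rw [← map_mul, ← map_mul, e2]⟩
  have hL : ∀ a s : A ⧸ P, s ≠ 0 → ∃ b t : A ⧸ P, t ≠ 0 ∧ t * a = b * s := by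
    intro a s hs
    by_cases ha : a = 0
    · exact ⟨0, 1, one_ne_zero, by rw [ha, zero_mul, mul_zero]⟩
    obtain ⟨x, rfl⟩ := hsurj a
    obtain ⟨y, rfl⟩ := hsurj s
    obtain ⟨p', q', c', d', e1', e2', e3'⟩ := hop (MulOpposite.op x) (MulOpposite.op y)
    obtain ⟨p, rfl⟩ := MulOpposite.op_surjective p'
    obtain ⟨q, rfl⟩ := MulOpposite.op_surjective q'
    obtain ⟨c, rfl⟩ := MulOpposite.op_surjective c'
    obtain ⟨d, rfl⟩ := MulOpposite.op_surjective d'
    have e1 : p + q = 1 := MulOpposite.op_injective e1'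
    have e2 : p * x = c * y := MulOpposite.op_injective e2'
    have e3 : q * y = d * x := MulOpposite.op_injective e3'
    by_cases hp : Ideal.Quotient.mk P p = 0
    · have hq : Ideal.Quotient.mk P q = 1 := by
        have := congrArg (Ideal.Quotient.mk P) e1
        rw [map_add, hp, zero_add, map_one] at this
        exact this
      have h2 : Ideal.Quotient.mk P y = Ideal.Quotient.mk P d * Ideal.Quotient.mk P x := by
        have := congrArg (Ideal.Quotient.mk P) e3
        rw [map_mul, map_mul, hq, one_mul] at this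
        exact this
      refine ⟨1, Ideal.Quotient.mk P d, ?_, by rw [← h2, one_mul]⟩
      intro h0
      apply hs
      rw [h2, h0, zero_mul]
    · exact ⟨Ideal.Quotient.mk P c, Ideal.Quotient.mk P p, hp, by rw [← map_mul, ← map_mul, e2]⟩
  obtain ⟨D, hD, f, hf, h2, h3⟩ := loc_domain hL hR
  refine ⟨D, hD, f.comp (Ideal.Quotient.mk P), ?_, ?_, ?_⟩
  · intro x
    rw [RingHom.comp_apply, map_eq_zero_iff f hf, hmk]
    exact Iff.rfl
  · intro q
    obtain ⟨b, t, ht, h4⟩ := h2 q
    obtain ⟨x, rfl⟩ := hsurj b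
    obtain ⟨y, rfl⟩ := hsurj t
    refine ⟨x, y, ?_, h4⟩
    rw [RingHom.comp_apply]
    exact fun h0 => ht ((map_eq_zero_iff f hf).1 h0)
  · intro q
    obtain ⟨b, t, ht, h4⟩ := h3 q
    obtain ⟨x, rfl⟩ := hsurj b
    obtain ⟨y, rfl⟩ := hsurj t
    refine ⟨x, y, ?_, h4⟩
    rw [RingHom.comp_apply]
    exact fun h0 => ht ((map_eq_zero_iff f hf).1 h0)

end Pool.Agent.Helper78_DR2
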